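import Pool.Agent.V7H50.FS.Img

/-!
MP_1e3e9c_ag, Q1: Kobayashi's conjecture for the varieties with multivalued generically finite maps
of small degree to varieties of linear spaces (Fano schemes) of generic complete intersections.

Let `K` be an algebraically closed field of characteristic `0`, for instance `ℂ`, and let `k` be a
field contained in `K`, with algebraic closure `k'` in `K`. Let `V` be a closed subset, defined over
`k'`, of the Grassmannian of the linear spaces of dimension `r` in projective space of dimension `n`
(they are given by the subspaces of dimension `r + 1` of `K ^ (n + 1)`), and let `m` be at least the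
dimension of `V` (`DimLE`). The set `V` is given by polynomials in the coordinates of `r + 1`
vectors; a subspace belongs to it if all tuples of `r + 1` vectors in the subspace satisfy them
(`Sat`). For the Grassmannian itself `m = (r + 1) (n - r)` (2).

For `a` in a finite set `A`, let `F_a` be a generic form of degree `d_a` in `n + 1` variables
(`Generic`: the ratios of the coefficients of `F_a` to one of them are, for all `a` together,
algebraically independent over `k`; for `K = ℂ` and a countable field `k`, very general forms have
this property). Let `X` be the variety of the linear spaces in `V` on which all the forms `F_a`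
vanish: the Fano scheme of the complete intersection `F_a = 0`, if `V` is the Grassmannian.

Let `Z` be any projective variety over `K` of dimension `w > 0`, smooth or not, with a multivalued
map of degree at most `ρ` to `X` which is generically finite. This means that there is a variety `Y`
in `Z × X` which dominates `Z` with degree at most `ρ` and is generically finite over its image in
`X`. For instance, `Z` can be dominated with degree at most `ρ` by a subvariety of `X` of dimension
`w`, or by a finite covering of such a subvariety. No assumption is made on the branch loci and on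
the singularities. `M` is the function field of `Z`, `L` is the function field of `Y`, and the rows
of `p` span its generic point, a subspace over `L` which belongs to `X`; the field `coordsG K p` is
generated over `K` by the ratios of its Pluecker coordinates.

(1) `Z` is of general type if `∑_a C(d_a + r + 1, r + 1) + w ≥ n + m + 2 ρ`: the canonical divisor of
a resolution of `Z` is big. So Kobayashi's conjecture holds for all these `Z`: if `Z` is smooth and
hyperbolic, or contains only no rational curve, then the canonical divisor of `Z` is big, and so it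
is ample (cone theorem, base point free theorem; this last standard step is not formalised here).

If `X` itself is irreducible, of the expected dimension `w = m - ∑_a C(d_a + r, r) > 0`, then the
condition for the images of `X` of degree at most `ρ` is `∑_a C(d_a + r, r + 1) ≥ n + 2 ρ`; for
instance, for the variety of the lines on a generic hypersurface of degree `d` in projective space
of dimension `n`: `d (d + 1) / 2 ≥ n + 2 ρ`.
-/

set_option autoImplicit false

namespace Pool.Agent.Results.MP_1e3e9c_ag.FanoSchemeImagesH50

open MvPolynomial Pool.Agent.W602.GT Pool.Agent.V7H50.FS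

/-- All the tuples of `r + 1` vectors in `P` satisfy the equations in `V`. -/
def Sat {k K : Type} [Field k] [Field K] [Algebra k K] {n r : ℕ}
    (V : Set (MvPolynomial (Fin (r + 1) × Fin (n + 1)) k)) (P : Submodule K (Fin (n + 1) → K)) :
    Prop :=
  ∀ q : Matrix (Fin (r + 1)) (Fin (n + 1)) K, (∀ i, q i ∈ P) →
    ∀ f ∈ V, aeval (fun s : Fin (r + 1) × Fin (n + 1) => q s.1 s.2) f = 0

/-- The closed subset of the Grassmannian given by `V` has dimension at most `m`. -/
def DimLE (k : Type) [Field k] {n r : ℕ} (V : Set (MvPolynomial (Fin (r + 1) × Fin (n + 1)) k))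
    (m : ℕ) : Prop :=
  ∀ (Ω : Type) [Field Ω] [Algebra k Ω] (p : Matrix (Fin (r + 1)) (Fin (n + 1)) Ω),
    LinearIndependent Ω p → Sat V (Submodule.span Ω (Set.range p)) →
    Algebra.trdeg k (coordsG k p) ≤ m

/-- The form `F a` has degree `d a`, and a non-zero coefficient with the exponent `I0 a`; the ratios
of the other coefficients to this one are, for all `a` together, algebraically independent over
`k`. -/
def Generic (k : Type) {K : Type} [Field k] [Field K] [Algebra k K] {n : ℕ} {A : Type}
    (d : A → ℕ) (F : A → MvPolynomial (Fin (n + 1)) K) : Prop :=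
  (∀ a, (F a).IsHomogeneous (d a)) ∧
    ∃ I0 : A → Fin (n + 1) →₀ ℕ, (∀ a, (F a).coeff (I0 a) ≠ 0) ∧
      AlgebraicIndependent k
        fun p : (a : A) × {I : Fin (n + 1) →₀ ℕ // I.degree = d a ∧ I ≠ I0 a} =>
          (F p.1).coeff p.2.1 / (F p.1).coeff (I0 p.1)

theorem result {k K : Type} [Field k] [Field K] [IsAlgClosed K] [CharZero K] [Algebra k K] :
    -- (1) varieties with multivalued maps to the varieties of linear spaces
    (∀ {n r m : ℕ} (V : Set (MvPolynomial (Fin (r + 1) × Fin (n + 1)) (algebraicClosure k K))),
      DimLE (algebraicClosure k K) V m →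
      ∀ {A : Type} [Fintype A] (d : A → ℕ) (F : A → MvPolynomial (Fin (n + 1)) K),
      Generic k d F →
      ∀ w ρ : ℕ, 0 < w → n + m + 2 * ρ ≤ ∑ a, (d a + r + 1).choose (r + 1) + w →
        ∀ (M L : Type) [Field M] [Field L] [Algebra K M] [Algebra K L] [Algebra M L]
        [IsScalarTower K M L] [FiniteDimensional M L] [Algebra.EssFiniteType K M],
        Algebra.trdeg K M = w → Module.finrank M L ≤ ρ →
        ∀ p : Matrix (Fin (r + 1)) (Fin (n + 1)) L, LinearIndependent L p →
        Algebra.IsAlgebraic (coordsG K p) L →
        IntermediateField.adjoin M (coordsG K p : Set L) = ⊤ →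
        Sat (map (algebraMap (algebraicClosure k K) K) '' V) (Submodule.span L (Set.range p)) →
        (∀ a, ∀ v ∈ Submodule.span L (Set.range p), aeval v (F a) = 0) → GeneralType K M w) ∧
    -- (2) the dimension of the Grassmannian
    ∀ n r : ℕ, DimLE (algebraicClosure k K)
      (∅ : Set (MvPolynomial (Fin (r + 1) × Fin (n + 1)) (algebraicClosure k K)))
      ((r + 1) * (n - r)) := by
  refine ⟨?_, ?_⟩
  · intro n r m V hV A _ d F hF w ρ hw hdim M L _ _ _ _ _ _ _ _ htr hρ p hp hgen hgenM hpV hpF
    obtain ⟨hFh, I0, h0, hind⟩ := hF
    have hV' : DimV (algebraicClosure k K) V m := dimV_of hV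
    have hMH : ∀ a, Pool.Agent.V7H76.MP.MH (g1 n) (F a) (dg1 d a) := fun a u hu => by
      rw [mdeg_iff, Finsupp.degree_eq_weight_one]
      exact hFh a (mem_support_iff.1 hu)
    have hind' : AlgebraicIndependent k fun p : Pool.Agent.V7H76.MP.Rt (g1 n) (dg1 d) I0 =>
        (F p.1).coeff p.2.1 / (F p.1).coeff (I0 p.1) := by
      obtain ⟨f, hf⟩ : ∃ f : Pool.Agent.V7H76.MP.Rt (g1 n) (dg1 d) I0 →
          ((a : A) × {I : Fin (n + 1) →₀ ℕ // I.degree = d a ∧ I ≠ I0 a}),
          ∀ p, f p = ⟨p.1, ⟨p.2.1, mdeg_iff.1 p.2.2.1, p.2.2.2⟩⟩ := ⟨_, fun _ => rfl⟩
      have hfi : Function.Injective f := by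
        rintro ⟨a, ⟨I, hI⟩⟩ ⟨b, ⟨J, hJ⟩⟩ h
        rw [hf, hf] at h
        have h4 : a = b := congrArg Sigma.fst h
        subst h4
        have h5 := congrArg Subtype.val (eq_of_heq (Sigma.mk.inj_iff.1 h).2)
        have h6 : I = J := h5
        subst h6
        rfl
      have h1 := hind.comp f hfi
      have h2 : (fun p : Pool.Agent.V7H76.MP.Rt (g1 n) (dg1 d) I0 =>
          (F p.1).coeff p.2.1 / (F p.1).coeff (I0 p.1)) =
          (fun p : (a : A) × {I : Fin (n + 1) →₀ ℕ // I.degree = d a ∧ I ≠ I0 a} =>
          (F p.1).coeff p.2.1 / (F p.1).coeff (I0 p.1)) ∘ f := by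
        funext p
        rw [Function.comp_apply, hf]
      rw [h2]
      exact h1
    refine img_spaces hV' F hMH I0 h0 hind'.algebraicClosure hw hdim htr hρ p hp hgen hgenM
      (fun q hq f hf => ?_) fun v hv a => hpF a v hv
    exact hpV q hq _ ⟨f, hf, rfl⟩
  · intro n r Ω _ _ p hp _
    have h1 := trdeg_gr (k := algebraicClosure k K) hp
    have h2 : n + 1 - (r + 1) = n - r := by omega
    rw [h2] at h1
    exact h1

end Pool.Agent.Results.MP_1e3e9c_ag.FanoSchemeImagesH50
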