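import Pool.Agent.V7H76.MW.Img

/-!
MP_1e3e9c_ag, Q1: Kobayashi's conjecture for the varieties which are dominated with small degree by
subvarieties of the preimages of arbitrary closed sets under generic sections of line bundles, and
for the varieties with multivalued generically finite maps to these preimages.

Let `K` be an algebraically closed field of characteristic `0`, for instance `ℂ`, and let `k` be a
field contained in `K`, with algebraic closure `k'` in `K`. The variables `x_s` are divided into
blocks, `g s` is the index of the block of `x_s`. They are the coordinates of a product `P` of
projective spaces `P_i`, one for each block `i`. For `a` in a finite set `A`, let `F_a` be a generic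
multihomogeneous form of multidegree `(d_{a,i})_i`: the coefficients of all these forms together are
algebraically independent over `k` (for `K = ℂ` and a countable field `k`, very general forms have
this property). Let `W` be any closed subset of the total space of the vector bundle `⊕ O(d_a)` on
`P`, defined over `k'`: it is given by polynomials in the `x_s` and in variables `z_a`, which are
homogeneous if `z_a` has the multidegree `d_a` (`WH`). Let `X` be the closed subset of `P` of the
points `x` such that `(x, F (x))` is in `W`: for instance, the intersection of a closed subset `V`
of `P` with generic hypersurfaces, or a generic determinantal variety in `V`, or the preimage of any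
projective variety over `k'` under the map from `V` given by generic forms of the same degree, or
the zero set in `V` of a generic section of `Q ⊗ O(d)` for a vector bundle `Q` on `V` that is
generated by its sections.

Let `Z` be any projective variety over `K` of dimension `w > 0`, smooth or not, with a multivalued
map of degree at most `r` to `X` which is generically finite. This means that there is a variety `Y`
in `Z × X` which dominates `Z` with degree at most `r` and is generically finite over its image in
`X`. For instance, `Z` can be dominated with degree at most `r` by a subvariety of `X` of dimension
`w`, or by any finite covering of such a subvariety. No assumption is made on the branch loci and on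
the singularities, and the map is not related to the embedding of `X`. `M` is the function field of
`Z`, `L` is the function field of `Y`, and `x` is its generic point, with values in `X`, in
multihomogeneous coordinates.

(1) `Z` is of general type: the canonical divisor of a resolution of `Z` is big. So Kobayashi's
conjecture holds for all these `Z`: if `Z` is smooth and hyperbolic, or contains only no rational
curve, then the canonical divisor of `Z` is big, and so it is ample (cone theorem, base point free
theorem; this last standard step is not formalised here). The condition on the degrees is `Cond` for
`N_i = 2 r`: for every subset `B` of `A` and every point `(x, z)` of `W` over an extension of `k'`,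
where one coordinate of `x` in each block is `1`, if the `z_a` with `a ∉ B` are algebraically
independent over `k' (x)`, then `∑_{a ∈ B} (d_{a,i} + 1) + w ≥ m + μ_i + N_i` for all `i`, where `m`
and `μ_i` are the transcendence degrees of `k' (x)` and of `k' (x_s : g s = i)` over `k'`. If the
field `L` is generated over `M` by the ratios of coordinates in the blocks with `i` in a set `S`, and
is algebraic over the field generated by them over `K` (this holds for the set of all blocks), then
`N_i = 1` suffices for the `i` not in `S`.

(2) Let `V` be a closed subset of `P` over `k'` of dimension at most `m`, with an image of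
dimension at most `μ_i` in `P_i`, and let `W` be contained in `V × 𝔸 ^ A`, with fibres over `V` of
codimension at least `c` in `𝔸 ^ A` (`FibreCodim`). Then the condition holds if
`∑_{a ∈ B} (d_{a,i} + 1) + w ≥ m + μ_i + N_i` for all `i` and all `B` with `c` elements. For
instance, for the intersection of `V` with generic hypersurfaces:
`∑_a (d_{a,i} + 1) + w ≥ m + μ_i + 2 r` for all `i`; in projective space, and for all `W` with fibres
of codimension at least `c` and all forms of the same degree `d`: `c (d + 1) + w ≥ 2 m + 2 r`.
-/

set_option autoImplicit false

namespace Pool.Agent.Results.MP_1e3e9c_ag.GenericImagesH76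

open MvPolynomial Pool.Agent.W602.GT Pool.Agent.V7H76.MP Pool.Agent.V7H76.MW

open scoped Classical in
theorem result {k K : Type} [Field k] [Field K] [IsAlgClosed K] [CharZero K] [Algebra k K]
    {n : ℕ} {A ι : Type} [Fintype ι] [Fintype A] (g : Fin (n + 1) → ι) (d : A → ι → ℕ)
    -- generic forms
    (F : A → MvPolynomial (Fin (n + 1)) K) (hF : ∀ a, MH g (F a) (d a))
    (hind : AlgebraicIndependent k
      fun p : (a : A) × {I : Fin (n + 1) →₀ ℕ // mdeg g I = d a} => (F p.1).coeff p.2.1)
    -- a closed subset of the total space of the vector bundle
    (W : Set (MvPolynomial (Fin (n + 1) ⊕ A) (algebraicClosure k K)))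
    (hWh : ∀ G ∈ W, ∃ e, WH g d G e) :
    -- (1) varieties with multivalued maps
    (∀ (S : Set ι) (w r : ℕ), 0 < w →
      Cond g d (algebraicClosure k K) W (fun i => if i ∈ S then 2 * r else 1) w →
      ∀ (M L : Type) [Field M] [Field L] [Algebra K M] [Algebra K L] [Algebra M L]
      [IsScalarTower K M L] [FiniteDimensional M L] [Algebra.EssFiniteType K M],
      Algebra.trdeg K M = w → Module.finrank M L ≤ r → ∀ x : Fin (n + 1) → L,
      (∀ i, ∃ s, g s = i ∧ x s ≠ 0) → Algebra.IsAlgebraic (coordsS g S K x) L →
      IntermediateField.adjoin M
        {z | ∃ i j, g i = g j ∧ g j ∈ S ∧ x j ≠ 0 ∧ z = x i / x j} = ⊤ →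
      (∀ G ∈ W, aeval (Sum.elim x fun a => aeval x (F a))
        (map (algebraMap (algebraicClosure k K) K) G) = 0) → GeneralType K M w) ∧
    -- (2) the condition in terms of the codimension of the fibres
    ∀ (V : Set (MvPolynomial (Fin (n + 1)) (algebraicClosure k K))) (m : ℕ) (μ : ι → ℕ),
      DimLEM g (algebraicClosure k K) V m μ → (∀ f ∈ V, rename Sum.inl f ∈ W) → ∀ c : ℕ,
      FibreCodim g (algebraicClosure k K) W c → ∀ (N : ι → ℕ) (w : ℕ),
      (∀ B : Finset A, B.card = c → ∀ i, m + μ i + N i ≤ ∑ a ∈ B, (d a i + 1) + w) →
      Cond g d (algebraicClosure k K) W N w := by
  refine ⟨fun S w r hw hW M L _ _ _ _ _ _ _ _ htr hr x hx0 hgen hgenM hxW => ?_,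
    fun V m μ hV hVW c hc N w hd => ?_⟩
  · exact img_pull W hWh S hW F hF hind.algebraicClosure hw htr hr x hx0 hgen hgenM hxW
  · exact cond_of_codim V hV W hVW hc hd

end Pool.Agent.Results.MP_1e3e9c_ag.GenericImagesH76
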