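import Pool.Agent.V7H74.MgR

/-!
# Kobayashi's conjecture for the images of smooth complete intersections in products of projective
lines: the counting condition

Let `V` be a smooth complete intersection, of dimension `n ≥ 1` and of any codimension `q`, in the
product of the projective lines with the coordinates `x_i`, `i = 1, ..., n + q`, with canonical
divisor `O(m_i)`, where all `m_i ≥ 0`. Let `V ⇢ X` be any dominant rational map of degree `r` to a
projective variety `X`, smooth or not; nothing is assumed about the map (it need not be a quotient
by a group). Let `x_{i0}` be one of the coordinates. For a set `S` of other coordinates, let `c(S)`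
be the number of the points of the general fibre of `V ⇢ X` where the coordinates in `S` have the
same values as in a given point of the fibre; so `c(∅) = r`.

(1) The coordinates `x_i`, `i ≠ i0`, spread the fibres if for some order of these coordinates, with
ties, given by numbers `b_i`, for all `s` and all nonempty sets `A` of coordinates with `b = s`,
`2 c({i : b_i ≤ s, i ∉ A}) ≤ c({i : b_i ≤ s}) (1 + ∑_{i ∈ A} m_i)` (`SpreadC`). Let
`V = V 0 ⇢ V 1 ⇢ ... ⇢ V k` be a tower (`SpreadLines`), where each `V j`, `j < k`, is a smooth complete
intersection as above, `V (j + 1)` is its image under the projection which forgets one coordinate,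
`V k` is uniruled, and if `V ⇢ X` factors through `V j` and not through `V (j + 1)` then the other
coordinates of `V j` spread the fibres of `V j ⇢ X`. The theorem: if there is no rational curve on
`X`, in particular if `X` is Kobayashi hyperbolic (every holomorphic map from `ℂ` to `X` is constant,
by Brody's criterion), then the canonical class of (a resolution of) `X` is big, and even the
canonical map of `X` is generically finite onto its image. It is enough that the union of the
rational curves on `X` is not Zariski dense. `X` is of general type if and only if its canonical map
is generically finite, and if and only if `X` is not uniruled. If `X` is smooth and hyperbolic, then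
`K_X` is even ample, as Kobayashi's conjecture predicts, because a big canonical divisor is ample if
there are no rational curves (cone theorem, base point free theorem); this last standard step is not
formalised here.

(2) In particular, let `V` be a smooth hypersurface of multidegree `(m_i + 2)` in the product of
`n + 1` projective lines, with `m_i ≥ 1` for `i ≠ i0`. Let each coordinate `x_i`, `i ≠ i0`, be
constant on the general fibres of `V ⇢ X` or take different values at all the points of the general
fibre (this holds for all maps of prime degree). Let `B` be the set of the coordinates of the second
kind, and `2 r ≤ 1 + ∑_{i ∈ B} m_i` if `B` is not empty. Then the conclusions of (1) hold.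

The earlier theorem in this repository for all dominated varieties (`HyperbolicLines`) needs
`2 r ≤ m_i + 1` for each `i ≠ i0`: here only sums of the `m_i` have to be large. For example, let
`m_i = m ≥ 1` for all `i`, and let `r` be a prime number, where no coordinate is constant on the
fibres: then `2 r ≤ 1 + n m` suffices instead of `2 r ≤ 1 + m`.

Proof: the forms `A x_{i0} ^ j Res`, where `Res` is the residue form on `V` and the degree of the
monomial `A` in `x_i` is at most `m_i` for all `i ≠ i0`, have traces on `X`. If these traces do not
separate the general points of `X`, there are two general fibres with a relation. It is restricted to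
the parts of the fibres with the same coordinates in larger and larger sets, by a theorem of Hall
type for products of polynomials; the order `b` gives an order of the elimination. At the end there
is a relation for the part with the same `x_i` for all `i ≠ i0`, and this contradicts the choice of
`j`. So `V ⇢ X` factors through the projection, or the canonical map of `X` is generically finite.
Some steps follow the proofs in `Pool/Agent/R882`.

`K` and `L` are the function fields of `V` and `X`, and `z` is the generic point of `X`, in
homogeneous coordinates: `coords ℂ z` is the field generated by their ratios, and `VarPts ℂ z` is the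
set of the points of `X`. `NoRationalCurve`, `BrodyHyperbolic`, `SpRat` (the Zariski closure of the
union of the rational curves on `X`) are in `Pool/Agent/R882/HYDefs.lean`. `CanGe L n n`: there are
`n + 1` canonical forms, regular on all smooth projective varieties with function field `L`, whose
ratios have transcendence degree `n` (`Pool/Agent/N145/SX/Tri.lean`). `IsSmooth`, `IsGenericPoint`:
`Pool/Agent/R882/HL.lean`. The definitions `SpreadC`, `SpreadLines`, `SharpLinesImage` are in
`Pool/Agent/V7H74/MgL.lean`, `MgR.lean`.
-/

set_option autoImplicit false
set_option linter.overlappingInstances false

open FF Module Pool.Agent.W602.GT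
open Pool.Agent.W619.PQ (IsUniruled)
open Pool.Agent.N145.SX (CanGe)
open Pool.Agent.R882.HY (NoRationalCurve BrodyHyperbolic SpRat)
open Pool.Agent.V7H74.MG

namespace Pool.Agent.Results.MP_1e3e9c_ag.HyperbolicSpreadLinesH74

/-- **Hyperbolic images of complete intersections in products of projective lines: the counting
condition.** Let `X` be a projective variety with function field `L` and generic point `z`, dominated
by `V` as in (1) or (2). -/
theorem result {n : ℕ} (hn : 1 ≤ n) {K : Type} [Field K] [Algebra ℂ K]
    (hK : Algebra.trdeg ℂ K = (n : ℕ))
    (L : Type) [Field L] [Algebra ℂ L] [Algebra L K] [IsScalarTower ℂ L K]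
    [FiniteDimensional L K] {N : ℕ} {z : Fin (N + 1) → L} (hz : z ≠ 0) (hgen : coords ℂ z = ⊤)
    (h :
      -- (1) towers
      SpreadLines n (fun E _ _ => IsUniruled ℂ E n) 2 K L ∨
      -- (2) hypersurfaces with sharp fibres
      (∃ (F : MvPolynomial (Fin (n + 1)) ℂ) (m : Fin (n + 1) → ℕ) (x : Fin (n + 1) → K)
        (i0 : Fin (n + 1)) (B : Finset (Fin (n + 1))), SharpLinesImage L n 2 F m x i0 B)) :
    [GeneralType ℂ L n, CanGe L n n, ¬ IsUniruled ℂ L n].TFAE ∧
    (SpRat z ≠ VarPts ℂ z → GeneralType ℂ L n ∧ CanGe L n n) ∧
    (NoRationalCurve z → GeneralType ℂ L n ∧ CanGe L n n) ∧
    (BrodyHyperbolic z → GeneralType ℂ L n ∧ CanGe L n n) := by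
  have hL : Algebra.trdeg ℂ L = (n : ℕ) := Pool.Agent.Y184.NT.trdeg_below (K := K) hK
  have hd : CanGe L n n ∨ IsUniruled ℂ L n := by
    rcases h with h | ⟨F, m, x, i0, B, hV⟩
    · exact (dichotomy_lines (Pool.Agent.R882.HT.descends_uniruled n) hK L).2 h
    · by_cases hc : CanGe L n n
      · exact Or.inl hc
      · exact Or.inr (Pool.Agent.R882.HQ.uniruled_of_unirational hn
          (hyp_sharp (L := L) hV.cover hV.coordinates hV.positive hV.degree
            (Or.inr ⟨rfl, hc⟩)).2)
  exact hyp_of hL hd hz hgen

end Pool.Agent.Results.MP_1e3e9c_ag.HyperbolicSpreadLinesH74
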