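import Pool.Agent.V7H74.MgR

/-!
# Kobayashi's conjecture for the images of nondegenerate complete intersections in tori: the counting
condition

Let `V` be a component, of dimension `n ≥ 1`, of the set of common zeros in a torus `(ℂ^*) ^ (n + q)`
of a system `f` of Laurent polynomials which is nondegenerate in the sense of Khovanskii, with
arbitrary Newton polytopes. Let the monomials `t_j = x ^ (w_j)` be given, divided into blocks, where
`β j` is the block of `t_j`, and let `E` be the image of `V` under these monomials, where
`ℂ(V) = ℂ(t)(y)` for a monomial `y = x ^ v`. Let `V ⇢ X` be any dominant rational map of degree `r`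
to a projective variety `X`, smooth or not; nothing is assumed about the map (it need not be a
quotient by a group). For a set `S` of monomials `t_j` let `c(S)` be the number of the points of the
general fibre of `V ⇢ X` where the `t_j` in `S` have the same values as in a given point of the
fibre; so `c(∅) = r`. Let `M_l` be numbers such that for some `u` the `u + j v + ∑_i a_i w_i` are in
the Fine interior of the Newton polytopes, for all `j < c(all)` and all `a_i ≥ 0` with sum at most
`M_l` over the block `l`, for each `l` (`HasBox`). For example, let `V` be a nondegenerate
hypersurface of multidegree `(d_1, ..., d_p, d_0)` in a product of projective spaces of dimensions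
`n_1, ..., n_p` and `1`, where the `t_j` are the affine coordinates of the first `p` factors and `y`
is the coordinate of the last one. Then `E` is the product of the first `p` factors, and
`M_l = d_l - n_l - 1` is possible, if these numbers are not negative and `c(all) < d_0`.

(1) The blocks spread the fibres if for some order of the blocks, with ties, given by numbers `b_l`,
for all `s` and all nonempty sets `A` of blocks with `b = s`,
`2 c({j : b (β j) ≤ s, β j ∉ A}) ≤ c({j : b (β j) ≤ s}) (1 + ∑_{l ∈ A} M_l)` (`Spread`). Let
`V = V 0 ⇢ V 1 ⇢ ... ⇢ V k` be a tower (`SpreadTower`), where each `V j`, `j < k`, is nondegenerate as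
above (in another torus), `V (j + 1)` is its image under monomials, `V k` is uniruled, and if
`V ⇢ X` factors through `V j` and not through `V (j + 1)` then the blocks of monomials spread the
fibres of `V j ⇢ X`. The theorem: if there is no rational curve on `X`, in particular if `X` is
Kobayashi hyperbolic (every holomorphic map from `ℂ` to `X` is constant, by Brody's criterion), then
the canonical class of (a resolution of) `X` is big, and even the canonical map of `X` is generically
finite onto its image. It is enough that the union of the rational curves on `X` is not Zariski
dense. `X` is of general type if and only if its canonical map is generically finite, and if and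
only if `X` is not uniruled. If `X` is smooth and hyperbolic, then `K_X` is even ample, as
Kobayashi's conjecture predicts, because a big canonical divisor is ample if there are no rational
curves (cone theorem, base point free theorem); this last standard step is not formalised here.

(2) In particular, let `E` be uniruled, and for each block let all `t_j` in the block be constant on
the general fibres of `V ⇢ X`, or let the `t_j` in the block take different values at any two points
of the general fibre with different images in `E`. Let `B` be the set of the blocks of the second
kind, `M_l ≥ 1` for all `l`, and `2 r ≤ c(all) (1 + ∑_{l ∈ B} M_l)` if `B` is not empty. Then the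
conclusions of (1) hold.

The earlier theorem in this repository for all dominated varieties (`HyperbolicTowers`) needs
`2 r ≤ c(all) (M + 1)` for a single block: in the example, `M` is the minimum of the
`d_l - n_l - 1`, and in (2) only the sum of these numbers has to be large.

Proof: the forms `A y ^ j x ^ u Res`, where `Res` is the residue form on `V` and `A` is a monomial in
the `t_j` of degree at most `M_l` in the block `l`, have traces on `X`. If these traces do not
separate the general points of `X`, there are two general fibres with a relation. It is restricted to
the parts of the fibres with the same `t_j` in more and more blocks, by a theorem of Hall type for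
products of polynomials; the order `b` gives an order of the elimination. At the end there is a
relation for the part with the same `t_j` for all `j`, and this contradicts the choice of `j`. So
`V ⇢ X` factors through `V ⇢ E`, or the canonical map of `X` is generically finite. Some steps follow
the proofs in `Pool/Agent/R882`.

`K` and `L` are the function fields of `V` and `X`, and `z` is the generic point of `X`, in
homogeneous coordinates: `coords ℂ z` is the field generated by their ratios, and `VarPts ℂ z` is the
set of the points of `X`. `NoRationalCurve`, `BrodyHyperbolic`, `SpRat` (the Zariski closure of the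
union of the rational curves on `X`) are in `Pool/Agent/R882/HYDefs.lean`. `CanGe L n n`: there are
`n + 1` canonical forms, regular on all smooth projective varieties with function field `L`, whose
ratios have transcendence degree `n` (`Pool/Agent/N145/SX/Tri.lean`). `Nondegenerate`,
`IsTorusPoint`, `InFine`: `Pool/Agent/R882/HT.lean`. The definitions `HasBox`, `Spread`,
`SpreadTower`, `SharpToricImage` are in `Pool/Agent/V7H74/Mg.lean`, `MgT.lean`, `MgR.lean`.
-/

set_option autoImplicit false
set_option linter.overlappingInstances false

open FF Module Pool.Agent.W602.GT
open Pool.Agent.W619.PQ (IsUniruled)
open Pool.Agent.N145.SX (CanGe)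
open Pool.Agent.R882.HY (NoRationalCurve BrodyHyperbolic SpRat)
open Pool.Agent.V7H74.MG

namespace Pool.Agent.Results.MP_1e3e9c_ag.HyperbolicSpreadTowersH74

/-- **Hyperbolic images of nondegenerate complete intersections: the counting condition.** Let `X` be
a projective variety with function field `L` and generic point `z`, dominated by `V` as in (1) or
(2). -/
theorem result {n : ℕ} {K : Type} [Field K] [Algebra ℂ K]
    (hK : Algebra.trdeg ℂ K = (n : ℕ))
    (L : Type) [Field L] [Algebra ℂ L] [Algebra L K] [IsScalarTower ℂ L K]
    [FiniteDimensional L K] {N : ℕ} {z : Fin (N + 1) → L} (hz : z ≠ 0) (hgen : coords ℂ z = ⊤)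
    (h :
      -- (1) towers
      SpreadTower n (fun E _ _ => IsUniruled ℂ E n) 2 K L ∨
      -- (2) sharp fibres
      (∃ (q N p : ℕ) (f : Fin q → (Fin (n + q) → ℤ) →₀ ℂ) (x : Fin (n + q) → K)
        (v : Fin (n + q) → ℤ) (w : Fin N → Fin (n + q) → ℤ) (t : Fin N → K) (β : Fin N → Fin p)
        (M : Fin p → ℕ) (B : Finset (Fin p)), SharpToricImage L n 2 f x v w t β M B ∧
        IsUniruled ℂ (IntermediateField.adjoin ℂ (Set.range t)) n)) :
    [GeneralType ℂ L n, CanGe L n n, ¬ IsUniruled ℂ L n].TFAE ∧
    (SpRat z ≠ VarPts ℂ z → GeneralType ℂ L n ∧ CanGe L n n) ∧
    (NoRationalCurve z → GeneralType ℂ L n ∧ CanGe L n n) ∧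
    (BrodyHyperbolic z → GeneralType ℂ L n ∧ CanGe L n n) := by
  have hL : Algebra.trdeg ℂ L = (n : ℕ) := Pool.Agent.Y184.NT.trdeg_below (K := K) hK
  have hd : CanGe L n n ∨ IsUniruled ℂ L n := by
    rcases h with h | ⟨q, N, p, f, x, v, w, t, β, M, B, hV, hE⟩
    · exact (dichotomy (Pool.Agent.R882.HT.descends_uniruled n) hK L).2 h
    · by_cases hc : CanGe L n n
      · exact Or.inl hc
      · exact Or.inr ((torus_sharp (L := L) hK hV.cover (fun _ => hV.room) hV.positive hV.blocks
          hV.degree (Or.inr ⟨rfl, hc⟩)).2 _ (Pool.Agent.R882.HT.descends_uniruled n) hE)
  exact hyp_of hL hd hz hgen

end Pool.Agent.Results.MP_1e3e9c_ag.HyperbolicSpreadTowersH74
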